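import Pool.Agent.Helper78.W3.StD

/-!
# Module Hk2 of project W3: the rows of the second Hecke operator on the plane
-/

set_option autoImplicit false

namespace Pool.Agent.Helper36.W3

open Pool.Agent.Helper14.CV (Homog EqC act Tl)
open Pool.Agent.Helper78.W3 Pool.Agent.Helper14.W3

section

variable {R : Type} [AddCommGroup R] {r s : ℕ}

private lemma comp (u1 u2 w1 w2 v1 v2 : ℤ) (G : ℤ → ℤ → R) :
    (edge3 1 u1 u2 v1 v2 G : ZMod (3 ^ r) → ZMod (3 ^ s) → R) =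
      edge3 1 u1 u2 w1 w2 G + edge3 1 w1 w2 v1 v2 G := by
  funext x y
  simp only [Pi.add_apply, edge3]
  abel

private lemma comp' (u1 u2 w1 w2 v1 v2 : ℤ) (G : ℤ → ℤ → R) :
    (edge3 1 w1 w2 v1 v2 G : ZMod (3 ^ r) → ZMod (3 ^ s) → R) =
      edge3 1 u1 u2 v1 v2 G - edge3 1 u1 u2 w1 w2 G := by
  funext x y
  simp only [Pi.sub_apply, edge3]
  abel

private lemma scale {G : ℤ → ℤ → R} (hH : Homog G) (k u1 u2 v1 v2 : ℤ) (hk : k ≠ 0)
    (hv : v1 ≠ 0 ∨ v2 ≠ 0) :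
    (edge3 1 u1 u2 (k * v1) (k * v2) G : ZMod (3 ^ r) → ZMod (3 ^ s) → R) =
      edge3 1 u1 u2 v1 v2 G := by
  funext x y
  simp only [edge3]
  congr 1
  set X : ℤ := ((x.val : ℕ) : ℤ)
  set Y : ℤ := rY3 1 x y
  have hne : v1 + 3 ^ 1 * X * v2 ≠ 0 ∨ 3 * Y * v1 + (1 + 3 ^ (1 + 1) * X * Y) * v2 ≠ 0 := by
    by_contra h
    push Not at h
    obtain ⟨h1, h2⟩ := h
    have e2 : v2 = 0 := by linear_combination h2 - 3 * Y * h1
    have e1 : v1 = 0 := by rw [e2] at h1; linear_combination h1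
    rcases hv with hv | hv
    · exact hv e1
    · exact hv e2
  rw [← hH k _ _ hk hne]
  congr 1 <;> ring

private lemma opL_nil {q q' : ℕ} (F : Fn3 q q') : opL [] F = 0 := rfl

private lemma opL_cons {q q' : ℕ} (k a b c d : ℤ) (L : List Tm) (F : Fn3 q q') :
    opL ((k, a, b, c, d) :: L) F = ((k : ℤ) : ZMod 3) • tr a b c d F + opL L F := by
  simp only [opL, List.map_cons, List.sum_cons, LinearMap.add_apply, LinearMap.smul_apply]
  rfl

end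

theorem hHk2 (hHkF : S3HkF) (hTre : S3Tre) (hTrm : S3Trm) : S3Hk2 := by
  intro r s G hG i
  have hH := hG.1
  -- the Hecke formula
  have hmain : ∀ e : ℤ, (edge3 1 1 0 e 1 (Tl 2 (3 ^ (r + 1)) G) : Fn3 (3 ^ r) (3 ^ s)) =
      tr 1 0 0 2 (edge3 1 1 0 (2 * e) 1 G) + (tr 2 0 0 1 (edge3 1 1 0 e 2 G) +
        tr 2 (-1) 0 1 (edge3 1 1 0 (e + 3) 2 G)) := by
    intro e
    funext x y
    have h := hHkF (ZMod 3) inferInstance r s 2 G {0, 1} Nat.prime_two (by norm_num) hG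
      (by decide) (by decide) e 1 (Or.inr one_ne_zero) x y
    rw [Finset.sum_insert (by decide), Finset.sum_singleton] at h
    simp only [Nat.cast_ofNat, mul_zero, add_zero, mul_one, neg_zero] at h
    exact h
  -- translated paths
  have hE : ∀ (a b c d u1 u2 v1 v2 : ℤ), a * d - 9 * b * c = 1 → (u1 ≠ 0 ∨ u2 ≠ 0) →
      (v1 ≠ 0 ∨ v2 ≠ 0) →
      (edge3 1 (a * u1 + 3 * b * u2) (3 * c * u1 + d * u2) (a * v1 + 3 * b * v2)
        (3 * c * v1 + d * v2) G : Fn3 (3 ^ r) (3 ^ s)) = tr a b c d (edge3 1 u1 u2 v1 v2 G) := by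
    intro a b c d u1 u2 v1 v2 h hu hv
    funext x y
    exact hTre (ZMod 3) inferInstance r s G hG a b c d u1 u2 v1 v2 h hu hv x y
  have hM : ∀ (F : Fn3 (3 ^ r) (3 ^ s)) (a b c d a' b' c' d' : ℤ), ¬ 3 ∣ a → ¬ 3 ∣ d → ¬ 3 ∣ a' →
      ¬ 3 ∣ d' → tr a b c d (tr a' b' c' d' F) =
      tr (a * a' + 9 * b * c') (a * b' + b * d') (c * a' + d * c') (9 * c * b' + d * d') F :=
    fun F => (hTrm (ZMod 3) r s F).1
  have tadd : ∀ (a b c d : ℤ) (F F' : Fn3 (3 ^ r) (3 ^ s)),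
      tr a b c d (F + F') = tr a b c d F + tr a b c d F' := fun _ _ _ _ _ _ => rfl
  have tsub : ∀ (a b c d : ℤ) (F F' : Fn3 (3 ^ r) (3 ^ s)),
      tr a b c d (F - F') = tr a b c d F - tr a b c d F' := fun _ _ _ _ _ _ => rfl
  have p0 : (edge3 1 1 0 0 1 G : Fn3 (3 ^ r) (3 ^ s)) = pf G 0 := rfl
  have p1 : (edge3 1 1 0 1 1 G : Fn3 (3 ^ r) (3 ^ s)) = pf G 1 := rfl
  have p2 : (edge3 1 1 0 (-1) 1 G : Fn3 (3 ^ r) (3 ^ s)) = pf G 2 := rfl
  -- the path from two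
  have q2 : (edge3 1 1 0 2 1 G : Fn3 (3 ^ r) (3 ^ s)) = tr 1 1 0 1 (pf G 2) := by
    have h := hE 1 1 0 1 1 0 (-1) 1 (by norm_num) (Or.inl one_ne_zero) (Or.inr one_ne_zero)
    norm_num at h
    rw [h, p2]
  rw [Fin.sum_univ_three]
  have hpf : (pf (Tl 2 (3 ^ (r + 1)) G) i : Fn3 (3 ^ r) (3 ^ s)) =
    edge3 1 1 0 (e3 i) 1 (Tl 2 (3 ^ (r + 1)) G) := rfl
  rw [hpf, hmain]
  fin_cases i
  · -- row 0
    have a1 : (edge3 1 1 0 0 2 G : Fn3 (3 ^ r) (3 ^ s)) = pf G 0 := by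
      have h := scale (r := r) (s := s) hH 2 1 0 0 1 two_ne_zero (Or.inr one_ne_zero)
      norm_num at h
      rw [h, p0]
    have a2 : (edge3 1 1 0 3 2 G : Fn3 (3 ^ r) (3 ^ s)) =
        pf G 1 + tr 4 (-1) 1 (-2) (pf G 0 - pf G 1) := by
      rw [comp 1 0 1 1 3 2, p1]
      congr 1
      have h := scale (r := r) (s := s) hH (-1) 1 1 3 2 (by norm_num) (Or.inl (by norm_num))
      have h' := hE 4 (-1) 1 (-2) 1 1 0 1 (by norm_num) (Or.inl one_ne_zero) (Or.inr one_ne_zero)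
      norm_num at h h'
      rw [← h, h', comp' 1 0 1 1 0 1, p0, p1]
    have z : e3 (⟨0, by norm_num⟩ : Fin 3) = 0 := rfl
    rw [z]
    norm_num
    have c1 : ∀ F : Fn3 (3 ^ r) (3 ^ s), tr 2 (-1) 0 1 (tr 4 (-1) 1 (-2) F) = tr (-1) 0 1 (-2) F := by
      intro F
      rw [hM _ _ _ _ _ _ _ _ _ (by norm_num) (by norm_num) (by norm_num) (by norm_num)]
      norm_num
    rw [p0, a1, a2, tadd, tsub, tsub, c1, c1]
    simp only [T2L, opL_cons, opL_nil, Int.cast_one, Int.cast_neg, one_smul, neg_smul]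
    abel
  · -- row 1
    have a1 : (edge3 1 1 0 1 2 G : Fn3 (3 ^ r) (3 ^ s)) =
        pf G 0 + tr 1 0 1 1 (pf G 2 - pf G 0) := by
      rw [comp 1 0 0 1 1 2, p0]
      congr 1
      have h := scale (r := r) (s := s) hH (-1) 0 1 1 2 (by norm_num) (Or.inl (by norm_num))
      have h' := hE 1 0 1 1 0 1 (-1) 1 (by norm_num) (Or.inr one_ne_zero) (Or.inr one_ne_zero)
      norm_num at h h'
      rw [← h, h', comp' 1 0 0 1 (-1) 1, p0, p2]
    have a2 : (edge3 1 1 0 4 2 G : Fn3 (3 ^ r) (3 ^ s)) = tr 1 1 0 1 (pf G 2) := by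
      have h := scale (r := r) (s := s) hH 2 1 0 2 1 two_ne_zero (Or.inr one_ne_zero)
      norm_num at h
      rw [h, q2]
    have z : e3 (⟨1, by norm_num⟩ : Fin 3) = 1 := rfl
    rw [z]
    norm_num
    have c1 : ∀ F : Fn3 (3 ^ r) (3 ^ s), tr 1 0 0 2 (tr 1 1 0 1 F) = tr 1 1 0 2 F := by
      intro F
      rw [hM _ _ _ _ _ _ _ _ _ (by norm_num) (by norm_num) (by norm_num) (by norm_num)]
      norm_num
    have c2 : ∀ F : Fn3 (3 ^ r) (3 ^ s), tr 2 0 0 1 (tr 1 0 1 1 F) = tr 2 0 1 1 F := by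
      intro F
      rw [hM _ _ _ _ _ _ _ _ _ (by norm_num) (by norm_num) (by norm_num) (by norm_num)]
      norm_num
    have c3 : ∀ F : Fn3 (3 ^ r) (3 ^ s), tr 2 (-1) 0 1 (tr 1 1 0 1 F) = tr 2 1 0 1 F := by
      intro F
      rw [hM _ _ _ _ _ _ _ _ _ (by norm_num) (by norm_num) (by norm_num) (by norm_num)]
      norm_num
    rw [q2, a1, a2, tadd, tsub, tsub, c1, c2, c2, c3]
    simp only [T2L, opL_cons, opL_nil, Int.cast_one, Int.cast_neg, one_smul, neg_smul]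
    abel
  · -- row 2
    have a0 : (edge3 1 1 0 (-2) 1 G : Fn3 (3 ^ r) (3 ^ s)) = tr 1 (-1) 0 1 (pf G 1) := by
      have h' := hE 1 (-1) 0 1 1 0 1 1 (by norm_num) (Or.inl one_ne_zero) (Or.inr one_ne_zero)
      norm_num at h'
      rw [h', p1]
    have a1 : (edge3 1 1 0 (-1) 2 G : Fn3 (3 ^ r) (3 ^ s)) =
        pf G 2 + tr (-2) 1 1 (-5) (pf G 1 - tr 1 1 0 1 (pf G 2)) := by
      rw [comp 1 0 (-1) 1 (-1) 2, p2]
      congr 1
      have h := scale (r := r) (s := s) hH (-1) (-1) 1 (-1) 2 (by norm_num) (Or.inl (by norm_num))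
      have h' := hE (-2) 1 1 (-5) 2 1 1 1 (by norm_num) (Or.inr one_ne_zero) (Or.inr one_ne_zero)
      norm_num at h h'
      rw [← h, h', comp' 1 0 2 1 1 1, p1, q2]
    have a2 : (edge3 1 1 0 2 2 G : Fn3 (3 ^ r) (3 ^ s)) = pf G 1 := by
      have h := scale (r := r) (s := s) hH 2 1 0 1 1 two_ne_zero (Or.inr one_ne_zero)
      norm_num at h
      rw [h, p1]
    have z : e3 (⟨2, by norm_num⟩ : Fin 3) = -1 := rfl
    rw [z]
    norm_num
    have c1 : ∀ F : Fn3 (3 ^ r) (3 ^ s), tr 1 0 0 2 (tr 1 (-1) 0 1 F) = tr 1 (-1) 0 2 F := by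
      intro F
      rw [hM _ _ _ _ _ _ _ _ _ (by norm_num) (by norm_num) (by norm_num) (by norm_num)]
      norm_num
    have c2 : ∀ F : Fn3 (3 ^ r) (3 ^ s), tr 2 0 0 1 (tr (-2) 1 1 (-5) F) = tr (-4) 2 1 (-5) F := by
      intro F
      rw [hM _ _ _ _ _ _ _ _ _ (by norm_num) (by norm_num) (by norm_num) (by norm_num)]
      norm_num
    have c3 : ∀ F : Fn3 (3 ^ r) (3 ^ s), tr (-4) 2 1 (-5) (tr 1 1 0 1 F) = tr (-4) (-2) 1 4 F := by
      intro F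
      rw [hM _ _ _ _ _ _ _ _ _ (by norm_num) (by norm_num) (by norm_num) (by norm_num)]
      norm_num
    rw [a0, a1, a2, tadd, tsub, tsub, c1, c2, c2, c3]
    simp only [T2L, opL_cons, opL_nil, Int.cast_one, Int.cast_neg, one_smul, neg_smul]
    abel

end Pool.Agent.Helper36.W3
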