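import Pool.Agent.Helper14.W3.StA

/-!
# Module N3 of project W3: the trace commutes with the Hecke operators
-/

set_option autoImplicit false

open UpperHalfPlane CongruenceSubgroup
open scoped MatrixGroups
open Pool.Agent.Helper14.CV Pool.Agent.Helper14.W3

namespace Pool.Agent.Helper36.W3

/-- Moebius action of an integral matrix. -/
private noncomputable def mob (A : Matrix (Fin 2) (Fin 2) ℤ) (z : ℂ) : ℂ :=
  ((A 0 0 : ℂ) * z + (A 0 1 : ℂ)) / ((A 1 0 : ℂ) * z + (A 1 1 : ℂ))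

private lemma den_ne (A : Matrix (Fin 2) (Fin 2) ℤ) (hA : 0 < A.det) (z : ℂ) (hz : 0 < z.im) :
    ((A 1 0 : ℂ) * z + (A 1 1 : ℂ)) ≠ 0 := by
  intro h
  have him := congrArg Complex.im h
  have hre := congrArg Complex.re h
  simp at him hre
  have h10 : A 1 0 = 0 := by
    rcases him with h | h
    · exact_mod_cast h
    · exact absurd h hz.ne'
  have h11 : A 1 1 = 0 := by
    rw [h10] at hre; simpa using hre
  rw [Matrix.det_fin_two, h10, h11] at hA
  simp at hA

private lemma mob_im (A : Matrix (Fin 2) (Fin 2) ℤ) (hA : 0 < A.det) (z : ℂ) (hz : 0 < z.im) :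
    0 < (mob A z).im := by
  have hd := den_ne A hA z hz
  have hn : 0 < Complex.normSq ((A 1 0 : ℂ) * z + (A 1 1 : ℂ)) := Complex.normSq_pos.mpr hd
  have hdet : (0 : ℝ) < (A 0 0 : ℝ) * A 1 1 - A 0 1 * A 1 0 := by
    rw [Matrix.det_fin_two] at hA
    exact_mod_cast hA
  have : (mob A z).im = z.im * ((A 0 0 : ℝ) * A 1 1 - A 0 1 * A 1 0) /
      Complex.normSq ((A 1 0 : ℂ) * z + (A 1 1 : ℂ)) := by
    unfold mob
    rw [Complex.div_im]
    simp only [Complex.add_im, Complex.mul_im, Complex.intCast_re, Complex.intCast_im,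
      Complex.add_re, Complex.mul_re, zero_mul, sub_zero, add_zero]
    ring
  rw [this]
  positivity

private lemma mob_mul (A B : Matrix (Fin 2) (Fin 2) ℤ) (z : ℂ)
    (h : ((B 1 0 : ℂ) * z + (B 1 1 : ℂ)) ≠ 0) : mob (A * B) z = mob A (mob B z) := by
  unfold mob
  simp only [Matrix.mul_apply, Fin.sum_univ_two]
  push_cast
  have e1 : (A 0 0 : ℂ) * (((B 0 0 : ℂ) * z + (B 0 1 : ℂ)) / ((B 1 0 : ℂ) * z + (B 1 1 : ℂ))) +
      (A 0 1 : ℂ) = ((A 0 0 : ℂ) * ((B 0 0 : ℂ) * z + (B 0 1 : ℂ)) +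
        (A 0 1 : ℂ) * ((B 1 0 : ℂ) * z + (B 1 1 : ℂ))) / ((B 1 0 : ℂ) * z + (B 1 1 : ℂ)) := by
    rw [eq_div_iff h, add_mul, mul_assoc, div_mul_cancel₀ _ h]
  have e2 : (A 1 0 : ℂ) * (((B 0 0 : ℂ) * z + (B 0 1 : ℂ)) / ((B 1 0 : ℂ) * z + (B 1 1 : ℂ))) +
      (A 1 1 : ℂ) = ((A 1 0 : ℂ) * ((B 0 0 : ℂ) * z + (B 0 1 : ℂ)) +
        (A 1 1 : ℂ) * ((B 1 0 : ℂ) * z + (B 1 1 : ℂ))) / ((B 1 0 : ℂ) * z + (B 1 1 : ℂ)) := by
    rw [eq_div_iff h, add_mul, mul_assoc, div_mul_cancel₀ _ h]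
  rw [e1, e2, div_div_div_cancel_right₀ h]
  congr 1 <;> ring

/-- the standard family of representatives -/
private def st (p : ℕ) (P : Fin (p + 1)) : Matrix (Fin 2) (Fin 2) ℤ :=
  if (P : ℕ) < p then !![1, ((P : ℕ) : ℤ); 0, (p : ℤ)] else !![(p : ℤ), 0; 0, 1]

private lemma st_det (p : ℕ) (P : Fin (p + 1)) : (st p P).det = p := by
  unfold st
  split_ifs <;> simp [Matrix.det_fin_two]

private lemma st_sum (p : ℕ) (F : ℂ → ℂ) (z : ℂ) :
    ∑ P : Fin (p + 1), F (mob (st p P) z) =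
      F (p * z) + ∑ j ∈ Finset.range p, F ((z + j) / p) := by
  rw [Fin.sum_univ_castSucc, add_comm]
  congr 1
  · simp [st, mob]
  · rw [← Fin.sum_univ_eq_sum_range (fun j : ℕ => F ((z + j) / p)) p]
    refine Finset.sum_congr rfl fun j _ => ?_
    have : ((j : Fin p) : ℕ) < p := j.2
    simp [st, mob]

/-- the matrix `σ_t` and its inverse -/
private def sg (M : ℕ) (t : ℤ) : Matrix (Fin 2) (Fin 2) ℤ := !![1, 0; t * (M : ℤ), 1]
private def sgi (M : ℕ) (t : ℤ) : Matrix (Fin 2) (Fin 2) ℤ := !![1, 0; -(t * (M : ℤ)), 1]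

private lemma sgi_sg (M : ℕ) (t : ℤ) : sgi M t * sg M t = 1 := by
  ext i j; fin_cases i <;> fin_cases j <;> simp [sg, sgi, Matrix.mul_apply, Fin.sum_univ_two]

private lemma sg_adj (M : ℕ) (t : ℤ) : (sg M t).adjugate = sgi M t := by
  rw [sg, sgi, Matrix.adjugate_fin_two_of]
  simp

private lemma sgi_adj (M : ℕ) (t : ℤ) : (sgi M t).adjugate = sg M t := by
  rw [sg, sgi, Matrix.adjugate_fin_two_of]
  simp

private lemma sg_det (M : ℕ) (t : ℤ) : (sg M t).det = 1 := by simp [sg, Matrix.det_fin_two]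

private lemma sgi_det (M : ℕ) (t : ℤ) : (sgi M t).det = 1 := by simp [sgi, Matrix.det_fin_two]

private lemma mob_sg (M : ℕ) (t : ℤ) (z : ℂ) : mob (sg M t) z = z / (t * M * z + 1) := by
  simp [mob, sg]

/-- divisibility of all entries -/
private lemma dvd_mul_left' (l : ℤ) (A B : Matrix (Fin 2) (Fin 2) ℤ)
    (h : ∀ i j, l ∣ B i j) : ∀ i j, l ∣ (A * B) i j := by
  intro i j
  rw [Matrix.mul_apply]
  exact Finset.dvd_sum fun k _ => Dvd.dvd.mul_left (h k j) _

private lemma dvd_mul_right' (l : ℤ) (A B : Matrix (Fin 2) (Fin 2) ℤ)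
    (h : ∀ i j, l ∣ A i j) : ∀ i j, l ∣ (A * B) i j := by
  intro i j
  rw [Matrix.mul_apply]
  exact Finset.dvd_sum fun k _ => Dvd.dvd.mul_right (h i k) _

private lemma st_distinct (p : ℕ) (hp : p.Prime) (P P' : Fin (p + 1)) (hne : P ≠ P')
    (h : ∀ i j, (p : ℤ) ∣ (st p P * (st p P').adjugate) i j) : False := by
  have hp1 : ¬ (p : ℤ) ∣ 1 := by
    intro hh
    have := Int.natAbs_dvd_natAbs.mpr hh
    simp at this
    exact hp.one_lt.ne' this
  unfold st at h
  split_ifs at h with h1 h2 h2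
  · have h01 := h 0 1
    rw [Matrix.adjugate_fin_two_of] at h01
    simp [Matrix.mul_apply, Fin.sum_univ_two] at h01
    have h3 : ((P : ℕ) : ℤ) ≡ ((P' : ℕ) : ℤ) [ZMOD (p : ℤ)] := by
      refine (Int.modEq_iff_dvd).mpr ?_
      have h4 : (p : ℤ) ∣ -(-((P' : ℕ) : ℤ) + ((P : ℕ) : ℤ)) := (dvd_neg).mpr h01
      have h5 : ((P' : ℕ) : ℤ) - ((P : ℕ) : ℤ) = -(-((P' : ℕ) : ℤ) + ((P : ℕ) : ℤ)) := by ring
      rw [h5]; exact h4
    have h6 : (P : ℕ) ≡ (P' : ℕ) [MOD p] := (Int.natCast_modEq_iff).mp h3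
    have h7 : (P : ℕ) = (P' : ℕ) := Nat.ModEq.eq_of_lt_of_lt h6 h1 h2
    exact hne (Fin.ext h7)
  · have h00 := h 0 0
    rw [Matrix.adjugate_fin_two_of] at h00
    simp [Matrix.mul_apply, Fin.sum_univ_two] at h00
    exact hp1 h00
  · have h11 := h 1 1
    rw [Matrix.adjugate_fin_two_of] at h11
    simp [Matrix.mul_apply, Fin.sum_univ_two] at h11
    exact hp1 h11
  · have h8 : (P : ℕ) = p := by have := P.2; omega
    have h9 : (P' : ℕ) = p := by have := P'.2; omega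
    exact hne (Fin.ext (h8.trans h9.symm))

private lemma const_of_deriv_zero (H : ℂ → ℂ) (hH : ∀ z : ℂ, 0 < z.im → HasDerivAt H 0 z) :
    ∃ c : ℂ, ∀ z : ℂ, 0 < z.im → H z = c := by
  have hconv : Convex ℝ {z : ℂ | 0 < z.im} := convex_halfSpace_im_gt 0
  have hI : (Complex.I : ℂ) ∈ {z : ℂ | 0 < z.im} := by simp
  refine ⟨H Complex.I, fun z hz => ?_⟩
  have hop : IsOpen {z : ℂ | 0 < z.im} := isOpen_lt continuous_const Complex.continuous_im
  exact hop.is_const_of_deriv_eq_zero hconv.isPreconnected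
    (fun w hw => (hH w hw).differentiableAt.differentiableWithinAt)
    (fun w hw => (hH w hw).deriv) hz hI

/-- the Hecke sum of the translate by `σ_t` -/
private lemma hecke_sg (h2 : StA2) (h3 : StA3) (hN1 : StN1) (M : ℕ) (hM : NeZero M)
    (f : CuspForm (G0 (3 * M)) 2) (p : ℕ) (lam : ℂ) (h3M : 3 ∣ M) (hp : p.Prime)
    (hpM : ¬ p ∣ 3 * M) (hf : HeckeEig f p lam) (t t' : ℤ) (ht : (3 : ℤ) ∣ p * t - t')
    (ht' : (3 : ℤ) ∣ t - t' * p) : ∃ c : ℂ, ∀ z : ℂ, 0 < z.im →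
    ∑ P : Fin (p + 1), Fp f (mob (sg M t) (mob (st p P) z)) =
      lam * Fp f (mob (sg M t') z) + c := by
  have hM0 : M ≠ 0 := hM.out
  have h3M0 : NeZero (3 * M) := ⟨by omega⟩
  have hp0 : 0 < p := hp.pos
  have hFf : ∀ z : ℂ, 0 < z.im → ∑ P : Fin (p + 1), Fp f (mob (st p P) z) = lam * Fp f z := by
    intro z hz
    rw [st_sum p (Fp f) z]
    exact h2 (3 * M) h3M0 f p lam hp0 hf z hz
  let ep : Fin (p + 1) → Matrix (Fin 2) (Fin 2) ℤ := fun P => sg M t * st p P * sgi M t'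
  have hepdet : ∀ P, (ep P).det = p := by
    intro P
    simp only [ep, Matrix.det_mul, sg_det, sgi_det, st_det]
    ring
  obtain ⟨m, hm⟩ := h3M
  obtain ⟨k, hk⟩ := ht
  obtain ⟨k', hk'⟩ := ht'
  have heplow : ∀ P, (((3 * M : ℕ)) : ℤ) ∣ ep P 1 0 := by
    intro P
    simp only [ep, st]
    split_ifs with h
    · refine ⟨k' - t * t' * m * (P : ℕ), ?_⟩
      have e : (sg M t * !![1, ((P : ℕ) : ℤ); 0, (p : ℤ)] * sgi M t') 1 0 =
          M * (t - t' * p) - t * t' * M * M * (P : ℕ) := by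
        simp [sg, sgi, Matrix.mul_apply, Fin.sum_univ_two]
        ring
      rw [e, hk']
      have hmz : (M : ℤ) = 3 * m := by exact_mod_cast hm
      push_cast
      linear_combination (-(t * t' * M * (P : ℕ))) * hmz
    · refine ⟨k, ?_⟩
      have e : (sg M t * !![(p : ℤ), 0; 0, 1] * sgi M t') 1 0 = M * (p * t - t') := by
        simp [sg, sgi, Matrix.mul_apply, Fin.sum_univ_two]
        ring
      rw [e, hk]
      push_cast
      ring
  have hepdis : ∀ P P', P ≠ P' → ¬ ∀ i j, (p : ℤ) ∣ (ep P * (ep P').adjugate) i j := by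
    intro P P' hne hall
    have e1 : ep P * (ep P').adjugate = sg M t * (st p P * (st p P').adjugate) * sgi M t := by
      simp only [ep, Matrix.adjugate_mul_distrib, sg_adj, sgi_adj]
      calc sg M t * st p P * sgi M t' * (sg M t' * ((st p P').adjugate * sgi M t))
          = sg M t * st p P * (sgi M t' * sg M t') * ((st p P').adjugate * sgi M t) := by
            simp only [Matrix.mul_assoc]
        _ = sg M t * (st p P * (st p P').adjugate) * sgi M t := by
            rw [sgi_sg, Matrix.mul_one]; simp only [Matrix.mul_assoc]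
    have e2 : st p P * (st p P').adjugate = sgi M t * (ep P * (ep P').adjugate) * sg M t := by
      rw [e1]
      calc st p P * (st p P').adjugate
          = (sgi M t * sg M t) * (st p P * (st p P').adjugate) * (sgi M t * sg M t) := by
            rw [sgi_sg, Matrix.one_mul, Matrix.mul_one]
        _ = sgi M t * (sg M t * (st p P * (st p P').adjugate) * sgi M t) * sg M t := by
            simp only [Matrix.mul_assoc]
    refine st_distinct p hp P P' hne ?_
    rw [e2]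
    exact dvd_mul_right' _ _ _ (dvd_mul_left' _ _ _ hall)
  obtain ⟨π, hπ⟩ := hN1 (3 * M) p hp hpM ep hepdet heplow hepdis
  choose γ hγdet hγlow hγ using hπ
  have hk3 : ∀ P, ∃ k : ℂ, ∀ z : ℂ, 0 < z.im → Fp f (mob (γ P) z) = Fp f z + k := by
    intro P
    have hd := hγdet P
    rw [Matrix.det_fin_two] at hd
    exact h3 (3 * M) h3M0 f (γ P 0 0) (γ P 0 1) (γ P 1 0) (γ P 1 1) hd (hγlow P)
  choose kk hkk using hk3
  have hstpos : ∀ P, 0 < (st p P).det := by
    intro P; rw [st_det]; exact_mod_cast hp0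
  refine ⟨∑ P, kk P, ?_⟩
  intro z hz
  have hw : 0 < (mob (sg M t') z).im := mob_im (sg M t') (by rw [sg_det]; norm_num) z hz
  have e1 : ∀ P, Fp f (mob (sg M t) (mob (st p P) z)) =
      Fp f (mob (st p (π P)) (mob (sg M t') z)) + kk P := by
    intro P
    have a1 : mob (sg M t) (mob (st p P) z) = mob (sg M t * st p P) z :=
      (mob_mul _ _ z (den_ne _ (hstpos P) z hz)).symm
    have a2 : sg M t * st p P = ep P * sg M t' := by
      simp only [ep]
      rw [Matrix.mul_assoc (sg M t * st p P), sgi_sg, Matrix.mul_one]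
    have a3 : mob (ep P * sg M t') z = mob (ep P) (mob (sg M t') z) :=
      mob_mul _ _ z (den_ne _ (by rw [sg_det]; norm_num) z hz)
    have a4 : ep P = γ P * st p (π P) := hγ P
    have a5 : mob (γ P * st p (π P)) (mob (sg M t') z) =
        mob (γ P) (mob (st p (π P)) (mob (sg M t') z)) :=
      mob_mul _ _ _ (den_ne _ (hstpos _) _ hw)
    rw [a1, a2, a3, a4, a5]
    exact hkk P _ (mob_im _ (hstpos _) _ hw)
  calc ∑ P : Fin (p + 1), Fp f (mob (sg M t) (mob (st p P) z))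
      = ∑ P : Fin (p + 1), (Fp f (mob (st p (π P)) (mob (sg M t') z)) + kk P) :=
        Finset.sum_congr rfl fun P _ => e1 P
    _ = ∑ P : Fin (p + 1), Fp f (mob (st p (π P)) (mob (sg M t') z)) + ∑ P, kk P :=
        Finset.sum_add_distrib
    _ = ∑ P : Fin (p + 1), Fp f (mob (st p P) (mob (sg M t') z)) + ∑ P, kk P := by
        rw [Equiv.sum_comp π (fun P => Fp f (mob (st p P) (mob (sg M t') z)))]
    _ = lam * Fp f (mob (sg M t') z) + ∑ P, kk P := by rw [hFf _ hw]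

private lemma deriv_sg (h1 : StA1) (M : ℕ) (hM : NeZero M) (f : CuspForm (G0 (3 * M)) 2) (t : ℤ)
    (z : ℂ) (hz : 0 < z.im) : HasDerivAt (fun w : ℂ => Fp f (mob (sg M t) w))
      (2 * Real.pi * Complex.I * fz f (z / (t * M * z + 1)) * ((t * M * z + 1) ^ 2)⁻¹) z := by
  have hM0 : M ≠ 0 := hM.out
  have h3M0 : NeZero (3 * M) := ⟨by omega⟩
  have hd : ((t : ℂ) * M * z + 1) ≠ 0 := by
    have := den_ne (sg M t) (by rw [sg_det]; norm_num) z hz
    simpa [sg] using this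
  have him : 0 < (z / (t * M * z + 1)).im := by
    have := mob_im (sg M t) (by rw [sg_det]; norm_num) z hz
    rwa [mob_sg] at this
  have d3 := (h1 (3 * M) h3M0 f _ him).2.2
  have d4 : HasDerivAt (fun w : ℂ => w / (t * M * w + 1)) (((t * M * z + 1) ^ 2)⁻¹) z := by
    have e1 : HasDerivAt (fun w : ℂ => (t : ℂ) * M * w + 1) ((t : ℂ) * M) z := by
      simpa using ((hasDerivAt_id z).const_mul ((t : ℂ) * M)).add_const (1 : ℂ)
    have e2 := (hasDerivAt_id z).div e1 hd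
    refine e2.congr_deriv ?_
    simp only [id]
    field_simp
    ring
  have d5 := d3.comp z d4
  have e : (fun w : ℂ => Fp f (mob (sg M t) w)) = Fp f ∘ fun w : ℂ => w / (t * M * w + 1) := by
    funext w
    rw [mob_sg]
    rfl
  rw [e]
  exact d5

theorem hN3 (h1 : StA1) (h2 : StA2) (h2c : StA2c) (h3 : StA3) (hN1 : StN1) : S3N3 := by
  intro M hM f g p lam h3M hp hpM hf hg
  have hM0 : M ≠ 0 := hM.out
  have h3M0 : NeZero (3 * M) := ⟨by omega⟩
  have hp0 : 0 < p := hp.pos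
  -- the constant of integration
  obtain ⟨c0, hc0⟩ : ∃ c : ℂ, ∀ z : ℂ, 0 < z.im →
      Fp g z - Fp f z - Fp f (mob (sg M 1) z) - Fp f (mob (sg M 2) z) = c := by
    apply const_of_deriv_zero
    intro z hz
    have d1 := (h1 M hM g z hz).2.2
    have d2 := (h1 (3 * M) h3M0 f z hz).2.2
    have d3 := deriv_sg h1 M hM f 1 z hz
    have d4 := deriv_sg h1 M hM f 2 z hz
    have d6 := ((d1.sub d2).sub d3).sub d4
    refine d6.congr_deriv ?_
    rw [hg z hz]
    push_cast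
    ring
  have hFg : ∀ z : ℂ, 0 < z.im → Fp g z = Fp f z + Fp f (mob (sg M 1) z) +
      Fp f (mob (sg M 2) z) + c0 := by
    intro z hz
    rw [← hc0 z hz]
    ring
  have hFf : ∀ z : ℂ, 0 < z.im → ∑ P : Fin (p + 1), Fp f (mob (st p P) z) = lam * Fp f z := by
    intro z hz
    rw [st_sum p (Fp f) z]
    exact h2 (3 * M) h3M0 f p lam hp0 hf z hz
  have hstpos : ∀ P, 0 < (st p P).det := by
    intro P; rw [st_det]; exact_mod_cast hp0
  -- the two translates together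
  obtain ⟨c1, hc1⟩ : ∃ c : ℂ, ∀ z : ℂ, 0 < z.im →
      ∑ P : Fin (p + 1), Fp f (mob (sg M 1) (mob (st p P) z)) +
        ∑ P : Fin (p + 1), Fp f (mob (sg M 2) (mob (st p P) z)) =
      lam * Fp f (mob (sg M 1) z) + lam * Fp f (mob (sg M 2) z) + c := by
    have hp3 : p % 3 = 1 ∨ p % 3 = 2 := by
      have : ¬ 3 ∣ p := by
        intro h
        have h4 : 3 = p := (Nat.prime_dvd_prime_iff_eq Nat.prime_three hp).1 h
        apply hpM
        rw [← h4]
        exact Dvd.intro M rfl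
      omega
    rcases hp3 with h | h
    · obtain ⟨c, hc⟩ := hecke_sg h2 h3 hN1 M hM f p lam h3M hp hpM hf 1 1 (by omega) (by omega)
      obtain ⟨c', hc'⟩ := hecke_sg h2 h3 hN1 M hM f p lam h3M hp hpM hf 2 2 (by omega) (by omega)
      refine ⟨c + c', fun z hz => ?_⟩
      rw [hc z hz, hc' z hz]
      ring
    · obtain ⟨c, hc⟩ := hecke_sg h2 h3 hN1 M hM f p lam h3M hp hpM hf 1 2 (by omega) (by omega)
      obtain ⟨c', hc'⟩ := hecke_sg h2 h3 hN1 M hM f p lam h3M hp hpM hf 2 1 (by omega) (by omega)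
      refine ⟨c + c', fun z hz => ?_⟩
      rw [hc z hz, hc' z hz]
      ring
  refine h2c M hM g p lam (c1 + (p + 1) * c0 - lam * c0) hp0 ?_
  intro z hz
  rw [← st_sum p (Fp g) z]
  have e1 : ∑ P : Fin (p + 1), Fp g (mob (st p P) z) =
      ∑ P : Fin (p + 1), Fp f (mob (st p P) z) +
        (∑ P : Fin (p + 1), Fp f (mob (sg M 1) (mob (st p P) z)) +
        ∑ P : Fin (p + 1), Fp f (mob (sg M 2) (mob (st p P) z))) + (p + 1) * c0 := by
    rw [Finset.sum_congr rfl fun P _ => hFg _ (mob_im _ (hstpos P) _ hz),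
      Finset.sum_add_distrib, Finset.sum_add_distrib, Finset.sum_add_distrib]
    simp only [Finset.sum_const, Finset.card_univ, Fintype.card_fin, nsmul_eq_mul]
    push_cast
    ring
  rw [e1, hFf z hz, hc1 z hz, hFg z hz]
  ring

end Pool.Agent.Helper36.W3
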